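import Pool.Agent.Lib.MP_021685_agTK.K0

/-! T-DISJ, leaf KN: a finite normal extension; conjugates and roots. -/

namespace TK

open Polynomial

private theorem KN_sp {k E : Type} [Field k] [Field E] [Algebra k E] (p : k[X])
    (hp : (p.map (algebraMap k E)).Splits) :
    FiniteDimensional k (IntermediateField.adjoin k (p.rootSet E)) ∧
      Normal k (IntermediateField.adjoin k (p.rootSet E)) := by
  have hK : IsSplittingField k (IntermediateField.adjoin k (p.rootSet E)) p :=
    IntermediateField.adjoin_rootSet_isSplittingField hp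
  exact ⟨Polynomial.IsSplittingField.finiteDimensional _ p, Normal.of_isSplittingField p⟩

private theorem KN_nor (L : Type) [Field L] (A B : Algebra ℚ L) (h : @Normal ℚ L _ _ A) : @Normal ℚ L _ _ B := by
  have e : A = B := Subsingleton.elim _ _
  rw [← e]
  exact h

/-- PROOF. Let `f = ∏ ρ ∈ S, minpoly ℚ ρ` (not zero, monic), `K = IntermediateField.adjoin ℚ (f.rootSet ℂ)`. It is a splitting
field of `f` (IntermediateField.adjoin_rootSet_isSplittingField, IsAlgClosed.splits), so finite
(IsSplittingField.finiteDimensional) and normal (Normal.of_isSplittingField). Every `ρ ∈ S` is a root of `f` (minpoly.aeval,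
Polynomial.mem_rootSet), so `ρ ∈ K` (IntermediateField.subset_adjoin). -/
theorem exists_field (S : Finset ℂ) (hS : ∀ ρ ∈ S, IsAlgebraic ℚ ρ) :
    ∃ K : IntermediateField ℚ ℂ, FiniteDimensional ℚ K ∧ Normal ℚ K ∧ ∀ ρ ∈ S, ρ ∈ K := by
  classical
  have hint : ∀ ρ ∈ S, IsIntegral ℚ ρ := fun ρ hρ => (hS ρ hρ).isIntegral
  have hf0 : (∏ ρ ∈ S, minpoly ℚ ρ) ≠ 0 :=
    Finset.prod_ne_zero_iff.2 fun ρ hρ => minpoly.ne_zero (hint ρ hρ)
  have hsp : ((∏ ρ ∈ S, minpoly ℚ ρ).map (algebraMap ℚ ℂ)).Splits := IsAlgClosed.splits _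
  refine ⟨IntermediateField.adjoin ℚ ((∏ ρ ∈ S, minpoly ℚ ρ).rootSet ℂ),
    (KN_sp _ hsp).1, KN_nor _ _ _ (KN_sp _ hsp).2, fun ρ hρ => ?_⟩
  refine IntermediateField.subset_adjoin ℚ _ ?_
  rw [mem_rootSet]
  refine ⟨hf0, ?_⟩
  rw [map_prod]
  exact Finset.prod_eq_zero hρ (minpoly.aeval ℚ ρ)

/-- PROOF. All `γ u` are roots of `f` (`aeval (γ u) f = γ (aeval u f) = 0`: Polynomial.aeval_algHom_apply or aeval_algEquiv), so
`orb u ⊆ (f.map (algebraMap ℚ F)).roots.toFinset` and the cardinal is at most `natDegree f` (Multiset.toFinset_card_le, card_roots',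
natDegree_map_le). -/
theorem orb_small {F : Type} [Field F] [Algebra ℚ F] [FiniteDimensional ℚ F] (u : F) (f : ℚ[X]) (hf : f ≠ 0)
    (n : ℕ) (hn : f.natDegree < n) (hu : aeval u f = 0) : (orb u).card < n := by
  classical
  refine lt_of_le_of_lt ?_ hn
  have h1 : orb u ⊆ (f.map (algebraMap ℚ F)).roots.toFinset := by
    intro y hy
    unfold orb at hy
    obtain ⟨γ, -, rfl⟩ := Finset.mem_image.1 hy
    rw [Multiset.mem_toFinset, mem_roots (Polynomial.map_ne_zero hf), IsRoot.def, eval_map_algebraMap]
    have h2 : aeval (γ u) f = γ (aeval u f) := Polynomial.aeval_algHom_apply γ u f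
    rw [h2, hu, map_zero]
  calc (orb u).card ≤ (f.map (algebraMap ℚ F)).roots.toFinset.card := Finset.card_le_card h1
    _ ≤ Multiset.card (f.map (algebraMap ℚ F)).roots := Multiset.toFinset_card_le _
    _ ≤ (f.map (algebraMap ℚ F)).natDegree := card_roots' _
    _ ≤ f.natDegree := natDegree_map_le

/-- PROOF. `γ q = q` (map_natCast), so `orb q = {q}`: the image of a constant function (Finset.card_le_one or image_const). -/
theorem orb_q {F : Type} [Field F] [Algebra ℚ F] [FiniteDimensional ℚ F] (q : ℕ) : (orb (q : F)).card ≤ 1 := by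
  classical
  rw [Finset.card_le_one]
  intro x hx y hy
  unfold orb at hx hy
  obtain ⟨γ, -, rfl⟩ := Finset.mem_image.1 hx
  obtain ⟨γ', -, rfl⟩ := Finset.mem_image.1 hy
  rw [map_natCast, map_natCast]

private theorem KN_min (h : ℤ[X]) (hm : h.Monic) (hi : Irreducible h) {F : Type} [Field F] [Algebra ℚ F]
    (x : F) (hx : aeval x h = 0) : h.map (algebraMap ℤ ℚ) = minpoly ℚ x := by
  have hirr : Irreducible (h.map (algebraMap ℤ ℚ)) :=
    (Monic.irreducible_iff_irreducible_map_fraction_map (K := ℚ) hm).1 hi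
  refine minpoly.eq_of_irreducible_of_monic hirr ?_ (hm.map _)
  rw [aeval_map_algebraMap]
  exact hx

/-- PROOF. `h` is irreducible over the rationals (Gauss, see the proof of `TI.emb` in `MP_021685_agTI/FE.lean`), so it is the
minimal polynomial of `x` and of `y`; conjugate elements of a normal extension are exchanged by an automorphism
(isConjRoot_iff_exists_algEquiv, or minpoly.exists_algEquiv_of_root). -/
theorem conj_root (h : ℤ[X]) (hm : h.Monic) (hi : Irreducible h) {F : Type} [Field F] [Algebra ℚ F]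
    [Normal ℚ F] (x y : F) (hx : aeval x h = 0) (hy : aeval y h = 0) : ∃ γ : F ≃ₐ[ℚ] F, γ x = y := by
  have h1 := KN_min h hm hi y hy
  refine minpoly.exists_algEquiv_of_root (Normal.isIntegral inferInstance y).isAlgebraic ?_
  rw [← h1, aeval_map_algebraMap]
  exact hx

/-- PROOF. `h` is irreducible over the rationals, so separable (characteristic zero), and it splits in the normal extension `F` in
which it has the root `x` (Normal.splits for `minpoly ℚ x = h.map _`, or Normal.splits'), so its set of roots in `F`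
(`h.rootSet F`, or `(h.map _).roots.toFinset`) has `natDegree h` elements (Polynomial.card_rootSet_eq_natDegree). -/
theorem card_root (h : ℤ[X]) (hm : h.Monic) (hi : Irreducible h) {F : Type} [Field F] [Algebra ℚ F]
    [Normal ℚ F] (x : F) (hx : aeval x h = 0) :
    ∃ O : Finset F, O.card = h.natDegree ∧ ∀ y ∈ O, aeval y h = 0 := by
  classical
  have h1 := KN_min h hm hi x hx
  have hirr : Irreducible (h.map (algebraMap ℤ ℚ)) :=
    (Monic.irreducible_iff_irreducible_map_fraction_map (K := ℚ) hm).1 hi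
  have hsep : (h.map (algebraMap ℤ ℚ)).Separable := hirr.separable
  have hspl : ((h.map (algebraMap ℤ ℚ)).map (algebraMap ℚ F)).Splits := by
    rw [h1]
    exact Normal.splits inferInstance x
  have h2 := card_rootSet_eq_natDegree hsep hspl
  refine ⟨((h.map (algebraMap ℤ ℚ)).rootSet F).toFinset, ?_, fun y hy => ?_⟩
  · rw [Set.toFinset_card, h2, hm.natDegree_map]
  · rw [Set.mem_toFinset, mem_rootSet] at hy
    rw [← hy.2, aeval_map_algebraMap]

end TK
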