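import Pool.Agent.Lib.MP_021685_agTI.FL

/-! T-DISJ, leaf KT: `z ^ 2 / q` is not a root of unity. -/

namespace TK

open Polynomial TI

/-- PROOF. `TI.rel_one` with `k = 1`, `d = n`, the family `fun _ => z0`: the relation is `z0 ^ (2 n) = q ^ (n 1)`. The first
cardinal is `1` (Finset.filter_true_of_mem), so the second is not `0`, and `z0 = q / z0`, `z0 ^ 2 = q` (`z0 ≠ 0` since `q ≠ 0`),
against `TI.sq_ne` (`resq q (h i) ≠ 0` by `h2`). -/
theorem not_tor {q g r : ℕ} (hq : 0 < q) (h : Fin r → ℤ[X]) (hm : ∀ i, (h i).Monic)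
    (hg : ∀ i, (h i).natDegree = g) (hi : ∀ i, Irreducible (h i)) (i : Fin r) (l : ℕ) (hl : l.Prime)
    (hlg : 2 * g + 1 < l) (hlq : ¬ l ∣ q) (h1 : (l : ℤ) ∣ resq q (h i)) (h2 : ¬ (l : ℤ) ^ 2 ∣ resq q (h i))
    (hsep : ∀ j, ((h j).map (Int.castRingHom (ZMod l))).Separable)
    (hj : ∀ j, j ≠ i → ¬ (l : ℤ) ∣ resq q (h j)) (z0 x0 : ℂ) (hx0 : aeval x0 (h i) = 0)
    (hz0 : z0 ^ 2 - x0 * z0 + (q : ℂ) = 0) (n : ℕ) (hn : 0 < n) : z0 ^ (2 * n) ≠ (q : ℂ) ^ n := by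
  intro hrel
  have hq0 : (q : ℂ) ≠ 0 := Nat.cast_ne_zero.2 hq.ne'
  have hz00 : z0 ≠ 0 := by
    rintro rfl
    refine hq0 ?_
    rw [← hz0]
    ring
  have hr : resq q (h i) ≠ 0 := fun h0 => h2 (by rw [h0]; exact dvd_zero _)
  have hsq := sq_ne q hq (h i) hr x0 z0 hx0 hz0
  have hne : ¬ z0 = (q : ℂ) / z0 := by
    intro h0
    refine hsq ?_
    rw [pow_two]
    exact (eq_div_iff hz00).1 h0
  have key := rel_one hq h hm hg hi i l hl hlg hlq h1 h2 hsep hj 1 n hn (fun _ => z0)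
    (fun _ => ⟨i, x0, hx0, hz0⟩) (by rw [Fin.prod_univ_one, mul_one]; exact hrel) z0 x0 hx0 hz0
  rw [Finset.filter_true_of_mem (fun _ _ => rfl), Finset.filter_false_of_mem (fun _ _ => hne), Finset.card_univ,
    Fintype.card_fin, Finset.card_empty] at key
  exact one_ne_zero key

end TK
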