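import Mathlib

/-! T-DISJ, file K0: products over the automorphisms which fix or exchange a number; definitions. -/

namespace TK

variable {F : Type} [Field F] [Algebra ℚ F] [FiniteDimensional ℚ F]

open Classical in
/-- The product of the `γ u` over all automorphisms `γ` with `γ z = z'`. -/
noncomputable def pr (z z' u : F) : F :=
  ∏ γ ∈ Finset.univ.filter (fun γ : F ≃ₐ[ℚ] F => γ z = z'), γ u

/-- The product over `γ z = z` divided by the product over `γ z = z'`. -/
noncomputable def ee (z z' u : F) : F := pr z z u / pr z z' u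

open Classical in
/-- The set of the conjugates of `u`. -/
noncomputable def orb (u : F) : Finset F := Finset.univ.image (fun γ : F ≃ₐ[ℚ] F => γ u)

/-- Signed permutations: the numbers `z x` and `q / z x` (`x` in `I`) are permuted by the automorphisms, for every `x` one of
them (`s x`, a flip) exchanges `z x` and `q / z x` and fixes the others. -/
structure SP (q g : ℕ) (F : Type) [Field F] [Algebra ℚ F] (I : Type) where
  z : I → F
  ne : ∀ x, z x ≠ 0
  s : I → (F ≃ₐ[ℚ] F)
  s1 : ∀ x, s x (z x) = (q : F) / z x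
  s2 : ∀ x y, y ≠ x → s x (z y) = z y
  perm : ∀ (γ : F ≃ₐ[ℚ] F) (x : I), ∃ y, γ (z x) = z y ∨ γ (z x) = (q : F) / z y
  tor : ∀ (x : I) (n : ℕ), 0 < n → z x ^ (2 * n) ≠ (q : F) ^ n
  big : ∀ x, ∃ O : Finset I, g ≤ O.card ∧
    ∀ y ∈ O, ∃ γ : F ≃ₐ[ℚ] F, γ (z x) = z y ∨ γ (z x) = (q : F) / z y

variable {q g : ℕ} {I : Type}

/-- `ee` for the pair `z x`, `q / z x`. -/
noncomputable def SP.e (S : SP q g F I) (x : I) (u : F) : F := ee (S.z x) ((q : F) / S.z x) u

open Classical in
/-- The `x` such that the square of `e x u` is not `1`. -/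
noncomputable def SP.supp [Fintype I] (S : SP q g F I) (u : F) : Finset I :=
  Finset.univ.filter (fun x => S.e x u ^ 2 ≠ 1)

end TK
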