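import Pool.Agent.Lib.MP_021685_agTK.K0

/-! T-DISJ, leaf K1: the products over stabilizers. -/

namespace TK

variable {F : Type} [Field F] [Algebra ℚ F] [FiniteDimensional ℚ F]

private theorem K1_pr (z z' w w' u u' : F) (e : (F ≃ₐ[ℚ] F) ≃ (F ≃ₐ[ℚ] F))
    (h1 : ∀ γ : F ≃ₐ[ℚ] F, γ z = z' ↔ e γ w = w') (h2 : ∀ γ : F ≃ₐ[ℚ] F, γ u = e γ u') :
    pr z z' u = pr w w' u' := by
  classical
  unfold pr
  refine Finset.prod_equiv e (fun γ => ?_) fun γ _ => h2 γ
  simp only [Finset.mem_filter, Finset.mem_univ, true_and]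
  exact h1 γ

omit [FiniteDimensional ℚ F] in
private theorem K1_q (q : ℕ) (γ : F ≃ₐ[ℚ] F) (z : F) : γ ((q : F) / z) = (q : F) / γ z := by
  rw [map_div₀, map_natCast]

omit [Algebra ℚ F] [FiniteDimensional ℚ F] in
private theorem K1_inj (q : ℕ) (hq : (q : F) ≠ 0) {a b : F} (ha : a ≠ 0) (hb : b ≠ 0) :
    (q : F) / a = (q : F) / b ↔ a = b := by
  constructor
  · intro h
    rw [div_eq_div_iff ha hb] at h
    exact (mul_left_cancel₀ hq h).symm
  · rintro rfl
    rfl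

omit [Algebra ℚ F] [FiniteDimensional ℚ F] in
private theorem K1_sw (q : ℕ) {a b : F} (ha : a ≠ 0) (hb : b ≠ 0) :
    (q : F) / a = b ↔ a = (q : F) / b := by
  rw [div_eq_iff ha, eq_div_iff hb, eq_comm, mul_comm]

/-- PROOF. `γ (u v) = γ u γ v`, Finset.prod_mul_distrib, mul_div_mul_comm. -/
theorem ee_mul (z z' u v : F) : ee z z' (u * v) = ee z z' u * ee z z' v := by
  unfold ee pr
  simp only [map_mul, Finset.prod_mul_distrib]
  rw [mul_div_mul_comm]

/-- PROOF. `γ 1 = 1`, Finset.prod_const_one. -/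
theorem ee_one (z z' : F) : ee z z' 1 = 1 := by
  unfold ee pr
  simp only [map_one, Finset.prod_const_one, div_one]

/-- PROOF. `γ u ≠ 0` (map_ne_zero), Finset.prod_ne_zero_iff, div_ne_zero. -/
theorem ee_ne (z z' u : F) (hu : u ≠ 0) : ee z z' u ≠ 0 := by
  unfold ee pr
  refine div_ne_zero ?_ ?_
  · exact Finset.prod_ne_zero_iff.2 fun γ _ => (map_ne_zero γ).2 hu
  · exact Finset.prod_ne_zero_iff.2 fun γ _ => (map_ne_zero γ).2 hu

/-- PROOF. `pr (γ z) (γ z') (γ u) = γ (pr z z' u)`: `map_prod`, and the bijection `δ ↦ γ * δ * γ⁻¹` (Finset.prod_bij' or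
Finset.prod_nbij') from the set `{δ | δ z = z'}` to `{δ | δ (γ z) = γ z'}`; `(γ δ γ⁻¹) (γ u) = γ (δ u)`
(AlgEquiv.mul_apply, AlgEquiv.symm_apply_apply; `γ⁻¹ = γ.symm`, AlgEquiv.aut_inv). Then map_div₀. -/
theorem ee_equiv (γ : F ≃ₐ[ℚ] F) (z z' u : F) : ee (γ z) (γ z') (γ u) = γ (ee z z' u) := by
  have h : ∀ a b : F, pr (γ a) (γ b) (γ u) = γ (pr a b u) := by
    intro a b
    classical
    unfold pr
    rw [map_prod]
    symm
    refine Finset.prod_equiv (MulAut.conj γ).toEquiv (fun δ => ?_) fun δ _ => ?_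
    · simp only [Finset.mem_filter, Finset.mem_univ, true_and]
      show δ a = b ↔ γ (δ (γ.symm (γ a))) = γ b
      rw [AlgEquiv.symm_apply_apply]
      exact γ.injective.eq_iff.symm
    · show γ (δ u) = γ (δ (γ.symm (γ u)))
      rw [AlgEquiv.symm_apply_apply]
  unfold ee
  rw [h, h, map_div₀]

/-- PROOF. `pr z z' (s u) = pr z z' u` for all `z'`: the bijection `γ ↦ γ * s` of the set `{γ | γ z = z'}` to itself
(`(γ * s) z = γ (s z) = γ z`), Finset.prod_bij' or prod_nbij'. -/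
theorem ee_fix (s : F ≃ₐ[ℚ] F) (z z' u : F) (hs : s z = z) : ee z z' (s u) = ee z z' u := by
  have h : ∀ b : F, pr z b (s u) = pr z b u := by
    intro b
    refine K1_pr z b z b (s u) u (Equiv.mulRight s) (fun γ => ?_) fun γ => rfl
    show γ z = b ↔ γ (s z) = b
    rw [hs]
  unfold ee
  rw [h, h]

/-- PROOF. `γ ↦ γ * s` is a bijection from `{γ | γ z = z}` to `{γ | γ z = q / z}` and from `{γ | γ z = q / z}` to
`{γ | γ z = z}`: `(γ * s) z = γ (q / z) = q / γ z` (map_div₀, map_natCast), and `q / (q / z) = z`. So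
`pr z z (s u) = pr z (q / z) u`, `pr z (q / z) (s u) = pr z z u` (Finset.prod_bij'), and inv_div. -/
theorem ee_flip (q : ℕ) (hq : (q : F) ≠ 0) (s : F ≃ₐ[ℚ] F) (z u : F) (hz : z ≠ 0) (hs : s z = (q : F) / z) :
    ee z ((q : F) / z) (s u) = (ee z ((q : F) / z) u)⁻¹ := by
  have h1 : pr z z (s u) = pr z ((q : F) / z) u := by
    refine K1_pr z z z ((q : F) / z) (s u) u (Equiv.mulRight s) (fun γ => ?_) fun γ => rfl
    show γ z = z ↔ γ (s z) = (q : F) / z
    rw [hs, K1_q, K1_inj q hq ((map_ne_zero γ).2 hz) hz]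
  have h2 : pr z ((q : F) / z) (s u) = pr z z u := by
    refine K1_pr z ((q : F) / z) z z (s u) u (Equiv.mulRight s) (fun γ => ?_) fun γ => rfl
    show γ z = (q : F) / z ↔ γ (s z) = z
    rw [hs, K1_q, K1_sw q ((map_ne_zero γ).2 hz) hz]
  unfold ee
  rw [h1, h2, inv_div]

/-- PROOF. `γ (q / z) = q / γ z` (map_div₀, map_natCast), so `γ (q / z) = q / z` is equivalent to `γ z = z` and
`γ (q / z) = z` to `γ z = q / z` (all numbers are not zero): the two sets of automorphisms are the same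
(Finset.filter_congr). -/
theorem ee_conj (q : ℕ) (hq : (q : F) ≠ 0) (z u : F) (hz : z ≠ 0) :
    ee ((q : F) / z) z u = ee z ((q : F) / z) u := by
  have h1 : pr ((q : F) / z) ((q : F) / z) u = pr z z u := by
    refine K1_pr _ _ _ _ u u (Equiv.refl _) (fun γ => ?_) fun γ => rfl
    show γ ((q : F) / z) = (q : F) / z ↔ γ z = z
    rw [K1_q, K1_inj q hq ((map_ne_zero γ).2 hz) hz]
  have h2 : pr ((q : F) / z) z u = pr z ((q : F) / z) u := by
    refine K1_pr _ _ _ _ u u (Equiv.refl _) (fun γ => ?_) fun γ => rfl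
    show γ ((q : F) / z) = z ↔ γ z = (q : F) / z
    rw [K1_q, K1_sw q ((map_ne_zero γ).2 hz) hz]
  unfold ee
  rw [h1, h2]

/-- PROOF. `n` is the number of `γ` with `γ z = z` (positive: `γ = 1`), equal to the number of `γ` with `γ z = q / z`
(bijection `γ ↦ γ * s`, Finset.card_bij' or Finset.card_nbij', as in `ee_flip`). `pr z z z = z ^ n`,
`pr z (q / z) z = (q / z) ^ n` (Finset.prod_congr, prod_const), the quotient is `z ^ (2 n) / q ^ n`. For `q`: all `γ q = q`, so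
`ee z (q / z) q = q ^ n / q ^ n = 1`. -/
theorem ee_self (q : ℕ) (hq : (q : F) ≠ 0) (s : F ≃ₐ[ℚ] F) (z : F) (hz : z ≠ 0) (hs : s z = (q : F) / z) :
    (∃ n : ℕ, 0 < n ∧ ee z ((q : F) / z) z = z ^ (2 * n) / (q : F) ^ n) ∧ ee z ((q : F) / z) (q : F) = 1 := by
  classical
  have hc : (Finset.univ.filter (fun γ : F ≃ₐ[ℚ] F => γ z = z)).card =
      (Finset.univ.filter (fun γ : F ≃ₐ[ℚ] F => γ z = (q : F) / z)).card := by
    refine Finset.card_equiv (Equiv.mulRight s) fun γ => ?_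
    simp only [Finset.mem_filter, Finset.mem_univ, true_and]
    show γ z = z ↔ γ (s z) = (q : F) / z
    rw [hs, K1_q, K1_inj q hq ((map_ne_zero γ).2 hz) hz]
  have hp : ∀ (S : Finset (F ≃ₐ[ℚ] F)) (u w : F), (∀ γ ∈ S, γ u = w) → ∏ γ ∈ S, γ u = w ^ S.card := by
    intro S u w h
    rw [Finset.prod_congr rfl h, Finset.prod_const]
  have h1 : pr z z z = z ^ (Finset.univ.filter (fun γ : F ≃ₐ[ℚ] F => γ z = z)).card := by
    unfold pr
    rw [← hp _ z z fun γ hγ => (Finset.mem_filter.1 hγ).2]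
  have h2 : pr z ((q : F) / z) z = ((q : F) / z) ^ (Finset.univ.filter (fun γ : F ≃ₐ[ℚ] F => γ z = z)).card := by
    rw [hc]
    unfold pr
    rw [← hp _ z ((q : F) / z) fun γ hγ => (Finset.mem_filter.1 hγ).2]
  have h3 : pr z z (q : F) = (q : F) ^ (Finset.univ.filter (fun γ : F ≃ₐ[ℚ] F => γ z = z)).card := by
    unfold pr
    rw [← hp _ (q : F) (q : F) fun γ hγ => map_natCast γ q]
  have h4 : pr z ((q : F) / z) (q : F) = (q : F) ^ (Finset.univ.filter (fun γ : F ≃ₐ[ℚ] F => γ z = z)).card := by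
    rw [hc]
    unfold pr
    rw [← hp _ (q : F) (q : F) fun γ hγ => map_natCast γ q]
  refine ⟨⟨(Finset.univ.filter (fun γ : F ≃ₐ[ℚ] F => γ z = z)).card, ?_, ?_⟩, ?_⟩
  · refine Finset.card_pos.2 ⟨1, ?_⟩
    rw [Finset.mem_filter]
    exact ⟨Finset.mem_univ _, rfl⟩
  · unfold ee
    rw [h1, h2, ← div_pow, div_div_eq_mul_div, ← pow_two, div_pow, ← pow_mul]
  · unfold ee
    rw [h3, h4, div_self (pow_ne_zero _ hq)]

end TK
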