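import Pool.Agent.Lib.MP_021685_agTK.K1

/-! T-DISJ, leaf K2: the flips and the products over stabilizers. -/

namespace TK

private theorem K2_q0 {F : Type} [Field F] [Algebra ℚ F] {q : ℕ} (hq : 0 < q) : (q : F) ≠ 0 := by
  have : CharZero F := algebraRat.charZero F
  exact Nat.cast_ne_zero.mpr hq.ne'

variable {F : Type} [Field F] [Algebra ℚ F] [FiniteDimensional ℚ F] {q g : ℕ} {I : Type} (S : SP q g F I)

/-- PROOF. `ee_mul`. -/
theorem SP.e_mul (x : I) (u v : F) : S.e x (u * v) = S.e x u * S.e x v := by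
  exact ee_mul _ _ u v

/-- PROOF. `ee_one`. -/
theorem SP.e_one (x : I) : S.e x 1 = 1 := by
  exact ee_one _ _

/-- PROOF. `ee_ne`. -/
theorem SP.e_ne (x : I) (u : F) (hu : u ≠ 0) : S.e x u ≠ 0 := by
  exact ee_ne _ _ u hu

/-- PROOF. `ee_flip` with `S.s1`; `(q : F) ≠ 0`: `F` has characteristic zero (`algebraRat.charZero F`). -/
theorem SP.e_flip (hq : 0 < q) (x : I) (u : F) : S.e x (S.s x u) = (S.e x u)⁻¹ := by
  exact ee_flip q (K2_q0 hq) (S.s x) (S.z x) u (S.ne x) (S.s1 x)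

/-- PROOF. `ee_fix`, `S.s2 y x`. -/
theorem SP.e_fix (x y : I) (hxy : x ≠ y) (u : F) : S.e x (S.s y u) = S.e x u := by
  exact ee_fix (S.s y) (S.z x) _ u (S.s2 y x hxy)

/-- PROOF. If `γ (z x) = z y` then `γ (q / z x) = q / z y` and `ee_equiv` is the claim. If `γ (z x) = q / z y` then
`γ (q / z x) = z y` and `ee_equiv` gives `γ (e x u) = ee (q / z y) (z y) (γ u) = e y (γ u)` (`ee_conj`). -/
theorem SP.e_perm (hq : 0 < q) (γ : F ≃ₐ[ℚ] F) (x y : I)
    (h : γ (S.z x) = S.z y ∨ γ (S.z x) = (q : F) / S.z y) (u : F) : S.e y (γ u) = γ (S.e x u) := by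
  have hq0 : (q : F) ≠ 0 := K2_q0 hq
  have h1 := ee_equiv γ (S.z x) ((q : F) / S.z x) u
  have h2 : γ ((q : F) / S.z x) = (q : F) / γ (S.z x) := by
    rw [map_div₀, map_natCast]
  rw [h2] at h1
  unfold SP.e
  rcases h with h | h
  · rw [h] at h1
    exact h1
  · rw [h, div_div_cancel₀ hq0, ee_conj q hq0 (S.z y) (γ u) (S.ne y)] at h1
    exact h1

/-- PROOF. `ee_self`. -/
theorem SP.e_self (hq : 0 < q) (x : I) : ∃ n : ℕ, 0 < n ∧ S.e x (S.z x) = S.z x ^ (2 * n) / (q : F) ^ n := by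
  exact (ee_self q (K2_q0 hq) (S.s x) (S.z x) (S.ne x) (S.s1 x)).1

/-- PROOF. `ee_self`. -/
theorem SP.e_q (hq : 0 < q) (x : I) : S.e x (q : F) = 1 := by
  exact (ee_self q (K2_q0 hq) (S.s x) (S.z x) (S.ne x) (S.s1 x)).2

/-- PROOF. `e x (z y) = e x (s y (z y)) = e x (q / z y)` (`e_fix`, `s1`), and `e x (q / z y) e x (z y) = e x q = 1`
(`e_mul`, `e_q`, div_mul_cancel₀). -/
theorem SP.e_other (hq : 0 < q) (x y : I) (hxy : x ≠ y) : S.e x (S.z y) ^ 2 = 1 := by
  have h1 : S.e x ((q : F) / S.z y) = S.e x (S.z y) := by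
    rw [← S.s1 y]
    exact S.e_fix x y hxy (S.z y)
  have h2 : S.e x ((q : F) / S.z y) * S.e x (S.z y) = 1 := by
    rw [← S.e_mul, div_mul_cancel₀ _ (S.ne y), S.e_q hq]
  rw [h1] at h2
  rw [sq]
  exact h2

/-- PROOF. If `z x = z y` with `x ≠ y` then `s x (z x) = q / z x` and `s x (z y) = z y = z x`, so `z x ^ 2 = q`, against `tor`
with `n = 1`. If `z x = q / z y` then `s x (z x) = q / z x = z y` and `s x (q / z y) = q / z y = z x`, so `z y = z x`. For
`x = y`: `z x = q / z x` gives `z x ^ 2 = q`. -/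
theorem SP.z_inj (hq : 0 < q) (x y : I) : (S.z x = S.z y → x = y) ∧ S.z x ≠ (q : F) / S.z y := by
  have hsq : ∀ w : I, S.z w ≠ (q : F) / S.z w := by
    intro w hw
    apply S.tor w 1 one_pos
    rw [mul_one, pow_one, sq]
    nth_rewrite 1 [hw]
    exact div_mul_cancel₀ _ (S.ne w)
  have h1 : ∀ v w : I, v ≠ w → S.z v ≠ S.z w := by
    intro v w hvw h
    apply hsq v
    have h2 := S.s2 v w (Ne.symm hvw)
    rw [← h, S.s1 v] at h2
    exact h2.symm
  refine ⟨fun h => ?_, fun h => ?_⟩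
  · by_contra hxy
    exact h1 x y hxy h
  · by_cases hxy : x = y
    · subst hxy
      exact hsq x h
    · have h2 : S.s x (S.z x) = S.z x := by
        nth_rewrite 1 [h]
        rw [map_div₀, map_natCast, S.s2 x y (Ne.symm hxy)]
        exact h.symm
      rw [S.s1 x] at h2
      exact hsq x h2.symm

end TK
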