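import Pool.Agent.Lib.MP_021685_agTK.K2

/-! T-DISJ, leaf K3: the supports. -/

namespace TK

variable {F : Type} [Field F] [Algebra ℚ F] [FiniteDimensional ℚ F] {q g : ℕ} {I : Type} [Fintype I]
  (S : SP q g F I)

/-- PROOF. `e_perm`: `e y (γ u) = γ (e x u)`, so one square is `1` if and only if the other is (`γ` is injective,
map_pow, map_one). -/
theorem SP.mem_supp_perm (hq : 0 < q) (γ : F ≃ₐ[ℚ] F) (x y : I)
    (h : γ (S.z x) = S.z y ∨ γ (S.z x) = (q : F) / S.z y) (u : F) : y ∈ S.supp (γ u) ↔ x ∈ S.supp u := by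
  classical
  have h1 := S.e_perm hq γ x y h u
  have h2 : S.e y (γ u) ^ 2 = γ (S.e x u ^ 2) := by rw [h1, map_pow]
  have h3 : S.e y (γ u) ^ 2 = 1 ↔ S.e x u ^ 2 = 1 := by
    rw [h2]
    constructor
    · intro h4
      exact γ.injective (h4.trans (map_one γ).symm)
    · intro h4
      rw [h4, map_one]
  unfold SP.supp
  rw [Finset.mem_filter, Finset.mem_filter]
  constructor
  · rintro ⟨-, h4⟩
    exact ⟨Finset.mem_univ _, fun h5 => h4 (h3.2 h5)⟩
  · rintro ⟨-, h4⟩
    exact ⟨Finset.mem_univ _, fun h5 => h4 (h3.1 h5)⟩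

/-- PROOF. For every `x` choose `f x` with `γ (z x) = z (f x)` or `= q / z (f x)` (`perm`). `f` is injective: if `f x = f x'` then
`γ (z x) = γ (z x')` or `γ (z x) = q / γ (z x') = γ (q / z x')` (or both are `q / z (f x)`), so `z x = z x'` or `z x = q / z x'`:
`z_inj`. `f` maps `supp u` to `supp (γ u)` (`mem_supp_perm`), so `card (supp u) ≤ card (supp (γ u))` (Finset.card_le_card_of_injOn)
for all `γ`, `u`; the other inequality is this one for `γ.symm` and `γ u`. -/
theorem SP.card_supp (hq : 0 < q) (γ : F ≃ₐ[ℚ] F) (u : F) : (S.supp (γ u)).card = (S.supp u).card := by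
  classical
  have hchar : CharZero F := algebraRat.charZero F
  have hq0 : (q : F) ≠ 0 := Nat.cast_ne_zero.2 hq.ne'
  have key : ∀ (γ : F ≃ₐ[ℚ] F) (u : F), (S.supp u).card ≤ (S.supp (γ u)).card := by
    intro γ u
    choose f hf using S.perm γ
    have hdiv : ∀ a : F, γ ((q : F) / a) = (q : F) / γ a := by
      intro a
      rw [map_div₀, map_natCast]
    have hdd : ∀ a : F, a ≠ 0 → (q : F) / ((q : F) / a) = a := by
      intro a ha
      field_simp
    refine Finset.card_le_card_of_injOn f (fun x hx => ?_) ?_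
    · exact Finset.mem_coe.2 ((S.mem_supp_perm hq γ x (f x) (hf x) u).2 (Finset.mem_coe.1 hx))
    · intro x _ x' _ hxx
      rcases hf x with h1 | h1 <;> rcases hf x' with h2 | h2
      · rw [← hxx, ← h1] at h2
        exact ((S.z_inj hq x' x).1 (γ.injective h2)).symm
      · rw [← hxx, ← h1, ← hdiv] at h2
        exact absurd (γ.injective h2) (S.z_inj hq x' x).2
      · rw [hxx, ← h2, ← hdiv] at h1
        exact absurd (γ.injective h1) (S.z_inj hq x x').2
      · rw [hxx, ← h2] at h1
        exact (S.z_inj hq x x').1 (γ.injective h1)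
  refine le_antisymm ?_ (key γ u)
  have h := key γ.symm (γ u)
  rw [AlgEquiv.symm_apply_apply] at h
  exact h

/-- PROOF. `e x (s y u)` is `e x u` or its inverse (`e_fix`, `e_flip`), and `(a⁻¹) ^ 2 = 1` if and only if `a ^ 2 = 1`. -/
theorem SP.supp_s (hq : 0 < q) (y : I) (u : F) : S.supp (S.s y u) = S.supp u := by
  classical
  unfold SP.supp
  refine Finset.filter_congr fun x _ => ?_
  by_cases hxy : x = y
  · rw [hxy, S.e_flip hq, inv_pow]
    exact not_congr inv_eq_one
  · rw [S.e_fix x y hxy]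

/-- PROOF. If `γ` is an automorphism then `δ ↦ δ * γ` is a bijection of the group, so `γ u` and `u` have the same conjugates
(Finset.ext, Finset.mem_image). -/
theorem orb_map (γ : F ≃ₐ[ℚ] F) (u : F) : orb (γ u) = orb u := by
  classical
  unfold orb
  ext v
  rw [Finset.mem_image, Finset.mem_image]
  constructor
  · rintro ⟨δ, -, h⟩
    exact ⟨γ.trans δ, Finset.mem_univ _, h⟩
  · rintro ⟨δ, -, h⟩
    refine ⟨γ.symm.trans δ, Finset.mem_univ _, ?_⟩
    rw [AlgEquiv.trans_apply, AlgEquiv.symm_apply_apply]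
    exact h

end TK
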