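import Pool.Agent.Lib.MP_021685_agTK.K3

/-! T-DISJ, leaf K4: many conjugates with the same support. -/

namespace TK

open Classical in
/-- PROOF. Put `A = supp u`, and `Φ : Bool × I → F`, `Φ (false, x) = s x u`, `Φ (true, x) = s x1 (s x u)`, on
`univ ×ˢ A` (cardinal `2 card A`). The values lie in `orb u` and have the support `A` (`supp_s`), which contains `x1`. `Φ` is
injective on `univ ×ˢ A`: for `y ∈ A`, `e y u` is not its inverse (`a = a⁻¹` gives `a ^ 2 = 1`, `a ≠ 0` by `e_ne`), and by `e_fix`,
`e_flip`: `e y (s x u) = e y u` if and only if `y ≠ x`; `e y (s x1 (s x u)) = e y u` if and only if (`y = x` and `y = x1`) or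
(`y ≠ x` and `y ≠ x1`). Suppose `Φ (a, x) = Φ (b, x')`. If `a = b = false`: take `y = x`: not equal, so `x = x'`.
If `a = b = true`: if `x = x1`: all `y` are equal, in particular `y = x'`, so `x' = x1`; if `x ≠ x1` and (symmetric) `x' ≠ x1`: take
`y = x`: not equal, so `x = x'` (or `x = x1`, excluded). If `a = false`, `b = true`: if `x' = x1`
then `e x (Φ (true, x')) = e x u` but `e x (Φ (false, x)) ≠ e x u`; if `x' ≠ x1`: `y = x1` is not equal on the right side, so
`x = x1`; `y = x'` is not equal on the right side, so `x = x'`, so `x' = x1`: contradiction.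
Finset.card_le_card_of_injOn. -/
theorem SP.many {F : Type} [Field F] [Algebra ℚ F] [FiniteDimensional ℚ F] {q g : ℕ} {I : Type} [Fintype I]
    (S : SP q g F I) (hq : 0 < q) (u : F) (hu : u ≠ 0) (x1 : I) (hx : x1 ∈ S.supp u) :
    2 * (S.supp u).card ≤ ((orb u).filter fun v => x1 ∈ S.supp v).card := by
  classical
  have hne : ∀ y ∈ S.supp u, (S.e y u)⁻¹ ≠ S.e y u := by
    intro y hy h
    have h1 : S.e y u ^ 2 ≠ 1 := by
      rw [SP.supp, Finset.mem_filter] at hy
      exact hy.2
    apply h1
    have h2 := S.e_ne y u hu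
    calc S.e y u ^ 2 = S.e y u * S.e y u := sq _
      _ = (S.e y u)⁻¹ * S.e y u := by rw [h]
      _ = 1 := inv_mul_cancel₀ h2
  have hF : ∀ y ∈ S.supp u, ∀ x, S.e y (S.s x u) = S.e y u ↔ y ≠ x := by
    intro y hy x
    constructor
    · intro h h3
      have e2 : S.e y (S.s x u) = (S.e y u)⁻¹ := by
        rw [← h3]
        exact S.e_flip hq y u
      rw [e2] at h
      exact hne y hy h
    · intro h
      exact S.e_fix y x h u
  have hT : ∀ y ∈ S.supp u, ∀ x,
      S.e y (S.s x1 (S.s x u)) = S.e y u ↔ (y = x ↔ y = x1) := by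
    intro y hy x
    by_cases h1 : y = x1
    · have e1 : S.e y (S.s x1 (S.s x u)) = (S.e y (S.s x u))⁻¹ := by
        rw [← h1]
        exact S.e_flip hq y _
      rw [e1]
      by_cases h2 : y = x
      · have e2 : S.e y (S.s x u) = (S.e y u)⁻¹ := by
          rw [← h2]
          exact S.e_flip hq y u
        rw [e2, inv_inv]
        exact ⟨fun _ => ⟨fun _ => h1, fun _ => h2⟩, fun _ => rfl⟩
      · rw [S.e_fix y x h2 u]
        exact ⟨fun h => absurd h (hne y hy), fun h => absurd (h.2 h1) h2⟩
    · rw [S.e_fix y x1 h1, hF y hy x]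
      exact ⟨fun h => ⟨fun h' => absurd h' h, fun h' => absurd h' h1⟩, fun h h' => h1 (h.1 h')⟩
  let Φ : Bool × I → F := fun a => if a.1 then S.s x1 (S.s a.2 u) else S.s a.2 u
  have hcard : 2 * (S.supp u).card = ((Finset.univ : Finset Bool) ×ˢ S.supp u).card := by
    rw [Finset.card_product, Finset.card_univ, Fintype.card_bool]
  rw [hcard]
  refine Finset.card_le_card_of_injOn Φ ?_ ?_
  · rintro ⟨a, x⟩ _
    rw [Finset.mem_coe, Finset.mem_filter]
    cases a
    · show S.s x u ∈ orb u ∧ x1 ∈ S.supp (S.s x u)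
      rw [S.supp_s hq]
      exact ⟨Finset.mem_image.2 ⟨S.s x, Finset.mem_univ _, rfl⟩, hx⟩
    · show S.s x1 (S.s x u) ∈ orb u ∧ x1 ∈ S.supp (S.s x1 (S.s x u))
      rw [S.supp_s hq, S.supp_s hq]
      exact ⟨Finset.mem_image.2 ⟨S.s x1 * S.s x, Finset.mem_univ _, rfl⟩, hx⟩
  · rintro ⟨a, x⟩ ha ⟨b, x'⟩ hb hab
    rw [Finset.mem_coe, Finset.mem_product] at ha hb
    have hxA : x ∈ S.supp u := ha.2
    have hxB : x' ∈ S.supp u := hb.2
    cases a <;> cases b
    · have hab' : S.s x u = S.s x' u := hab
      have h1 := hF x hxA x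
      have h2 := hF x hxA x'
      rw [hab', h2] at h1
      have h3 : x = x' := by tauto
      rw [h3]
    · exfalso
      have hab' : S.s x u = S.s x1 (S.s x' u) := hab
      have g1 := hF x hxA x
      have g2 := hF x' hxB x
      have g3 := hF x1 hx x
      rw [hab', hT x hxA x'] at g1
      rw [hab', hT x' hxB x'] at g2
      rw [hab', hT x1 hx x'] at g3
      by_cases c1 : x = x1
      · subst c1
        by_cases c2 : x = x'
        · subst c2
          tauto
        · have c3 : ¬ x' = x := fun h => c2 h.symm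
          tauto
      · have c2 : ¬ x1 = x := fun h => c1 h.symm
        have c3 : x1 = x' := by tauto
        subst c3
        tauto
    · exfalso
      have hab' : S.s x' u = S.s x1 (S.s x u) := (show S.s x1 (S.s x u) = S.s x' u from hab).symm
      have g1 := hF x' hxB x'
      have g2 := hF x hxA x'
      have g3 := hF x1 hx x'
      rw [hab', hT x' hxB x] at g1
      rw [hab', hT x hxA x] at g2
      rw [hab', hT x1 hx x] at g3
      by_cases c1 : x' = x1
      · subst c1
        by_cases c2 : x' = x
        · subst c2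
          tauto
        · have c3 : ¬ x = x' := fun h => c2 h.symm
          tauto
      · have c2 : ¬ x1 = x' := fun h => c1 h.symm
        have c3 : x1 = x := by tauto
        subst c3
        tauto
    · have hab' : S.s x1 (S.s x u) = S.s x1 (S.s x' u) := hab
      have h1 := hT x hxA x
      have h2 := hT x hxA x'
      rw [hab', h2] at h1
      have h3 : x = x' := by tauto
      rw [h3]

end TK
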