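import Pool.Agent.Lib.MP_021685_agTK.K4

/-! T-DISJ, leaf K5: an element with few conjugates has support zero. -/

namespace TK

variable {F : Type} [Field F] [Algebra ℚ F] [FiniteDimensional ℚ F] {q g : ℕ} {I : Type} [Fintype I]
  (S : SP q g F I)

/-- PROOF. Double counting. Let `x ∈ supp u`, `s = card (supp u) > 0`, `O` from `big x`. For `y ∈ O` with `γ`:
`y ∈ supp (γ u)` (`mem_supp_perm`), and `many` for `γ u` and `y` with `card_supp`, `orb_map` gives
`2 s ≤ card {v ∈ orb u | y ∈ supp v}`. So `g (2 s) ≤ ∑ y ∈ O, card {v ∈ orb u | y ∈ supp v} =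
∑ v ∈ orb u, card {y ∈ O | y ∈ supp v}` (Finset.sum_card_bipartiteAbove_eq_sum_card_bipartiteBelow, or Finset.card_eq_sum_ones /
sum_comm) `≤ card (orb u) s`, since `{y ∈ O | y ∈ supp v} ⊆ supp v` and `card (supp v) = s` for `v = δ u` (`card_supp`). Divide by `s`. -/
theorem SP.large (hq : 0 < q) (u : F) (hu : u ≠ 0) (x : I) (hx : x ∈ S.supp u) : 2 * g ≤ (orb u).card := by
  classical
  obtain ⟨O, hO, hg⟩ := S.big x
  have hs : 0 < (S.supp u).card := Finset.card_pos.2 ⟨x, hx⟩
  have h1 : ∀ y ∈ O, 2 * (S.supp u).card ≤ ((orb u).filter fun v => y ∈ S.supp v).card := by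
    intro y hy
    obtain ⟨γ, hγ⟩ := hg y hy
    have h2 : y ∈ S.supp (γ u) := (S.mem_supp_perm hq γ x y hγ u).2 hx
    have h3 := S.many hq (γ u) ((map_ne_zero γ).2 hu) y h2
    rw [S.card_supp hq γ u, orb_map γ u] at h3
    refine le_trans h3 (le_of_eq (congrArg Finset.card ?_))
    ext v
    simp only [Finset.mem_filter]
  have h4 : ∑ y ∈ O, ((orb u).filter fun v => y ∈ S.supp v).card =
      ∑ v ∈ orb u, (O.filter fun y => y ∈ S.supp v).card := by
    simp only [Finset.card_filter]
    exact Finset.sum_comm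
  have h5 : ∀ v ∈ orb u, (O.filter fun y => y ∈ S.supp v).card ≤ (S.supp u).card := by
    intro v hv
    unfold orb at hv
    rw [Finset.mem_image] at hv
    obtain ⟨δ, -, rfl⟩ := hv
    rw [← S.card_supp hq δ u]
    exact Finset.card_le_card fun y hy => (Finset.mem_filter.1 hy).2
  have h6 : O.card * (2 * (S.supp u).card) ≤ (orb u).card * (S.supp u).card :=
    calc O.card * (2 * (S.supp u).card) = ∑ _y ∈ O, 2 * (S.supp u).card := by
          rw [Finset.sum_const, smul_eq_mul]
      _ ≤ ∑ y ∈ O, ((orb u).filter fun v => y ∈ S.supp v).card := Finset.sum_le_sum h1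
      _ = ∑ v ∈ orb u, (O.filter fun y => y ∈ S.supp v).card := h4
      _ ≤ ∑ _v ∈ orb u, (S.supp u).card := Finset.sum_le_sum h5
      _ = (orb u).card * (S.supp u).card := by rw [Finset.sum_const, smul_eq_mul]
  have h7 : 2 * g * (S.supp u).card ≤ (orb u).card * (S.supp u).card := by
    refine le_trans ?_ h6
    calc 2 * g * (S.supp u).card = g * (2 * (S.supp u).card) := by ring
      _ ≤ O.card * (2 * (S.supp u).card) := Nat.mul_le_mul_right _ hO
  exact Nat.le_of_mul_le_mul_right h7 hs

/-- PROOF. Submonoid.closure_induction for the statement `c ≠ 0 → ∀ x, e x c ^ 2 = 1`: for a generator use `large` (if the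
square is not `1` then `x ∈ supp c`), for `1` `e_one`, for a product `e_mul`, mul_pow and left_ne_zero_of_mul,
right_ne_zero_of_mul. -/
theorem SP.e_closure (hq : 0 < q) (c : F) (hc : c ∈ Submonoid.closure {u : F | (orb u).card < 2 * g})
    (hc0 : c ≠ 0) (x : I) : S.e x c ^ 2 = 1 := by
  classical
  induction hc using Submonoid.closure_induction with
  | mem c h =>
    by_contra hne
    have h1 : x ∈ S.supp c := by
      unfold SP.supp
      exact Finset.mem_filter.2 ⟨Finset.mem_univ _, hne⟩
    exact absurd (S.large hq c hc0 x h1) (not_le.2 h)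
  | one => rw [S.e_one, one_pow]
  | mul a b _ _ iha ihb =>
    rw [S.e_mul, mul_pow, iha (left_ne_zero_of_mul hc0), ihb (right_ne_zero_of_mul hc0), one_mul]

end TK
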