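import Pool.Agent.Lib.MP_021685_agTI.TD

/-! Definitions used in the statement of `MP_021685_ag.AlmostAll` (the varieties with small Betti numbers). -/

namespace TK

open Polynomial

/-- A power `y ^ N`, `N > 0`, is a product of algebraic numbers of degree less than `n`. -/
def Small (n : ℕ) (y : ℂ) : Prop :=
  ∃ N : ℕ, 0 < N ∧ y ^ N ∈ Submonoid.closure {ρ : ℂ | ∃ f : ℚ[X], f ≠ 0 ∧ f.natDegree < n ∧ aeval ρ f = 0}

/-- `T'(v, w) = T₀(v) c(w)`, `T₀` a product of Tate pairings over the extension of degree `d`, `c` a linear form with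
`c(G w) = (√q)^(d b) c(w)` (a Tate class of a variety `Z` over the extension of degree `d`; `G` is the Frobenius operator of
`Z` on the dual of the cohomology of degree `b`). -/
def IsProdOver (q d k b : ℕ) {V W : Type} [AddCommGroup V] [Module ℂ V] [AddCommGroup W] [Module ℂ W]
    (F : V →ₗ[ℂ] V) (G : W →ₗ[ℂ] W) (T' : MultilinearMap ℂ (fun _ : Fin k => V) (W →ₗ[ℂ] ℂ)) : Prop :=
  ∃ (T₀ : MultilinearMap ℂ (fun _ : Fin k => V) ℂ) (c : W →ₗ[ℂ] ℂ), TI.IsProduct q d k F T₀ ∧
    (∀ w, c (G w) = ((Real.sqrt q : ℝ) : ℂ) ^ (d * b) * c w) ∧ ∀ v w, T' v w = T₀ v * c w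

/-- For every semisimple operator `F` on `V` with characteristic polynomial `P`, every extension degree `d > 0`, every
operator `G` on a space `W` all of whose eigenvalues are roots of products of algebraic numbers of degree less than `n`
(`Small n`), all `k` and `b`: all Tate forms on `V^k × W` over the extension of degree `d` (total weight `k + b`) are linear
combinations of products of Tate pairings on `V` and one Tate form on `W`. -/
def FullOver (q : ℕ) (P : ℤ[X]) (n : ℕ) : Prop :=
  ∀ (V W : Type) [AddCommGroup V] [Module ℂ V] [FiniteDimensional ℂ V] [AddCommGroup W] [Module ℂ W]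
    [FiniteDimensional ℂ W] (F : V →ₗ[ℂ] V) (G : W →ₗ[ℂ] W),
    Module.End.IsSemisimple F → F.charpoly = P.map (Int.castRingHom ℂ) →
      (∀ y, Module.End.HasEigenvalue G y → Small n y) →
        ∀ d k b : ℕ, 0 < d → ∀ T : MultilinearMap ℂ (fun _ : Fin k => V) (W →ₗ[ℂ] ℂ),
          (∀ v w, T (fun a => (F ^ d) (v a)) (G w) = ((Real.sqrt q : ℝ) : ℂ) ^ (d * (k + b)) * T v w) →
            T ∈ Submodule.span ℂ {T' : MultilinearMap ℂ (fun _ : Fin k => V) (W →ₗ[ℂ] ℂ) |
              IsProdOver q d k b F G T'}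

end TK
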