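import Pool.Agent.Lib.MP_021685_agTI.FW
import Pool.Agent.Lib.MP_021685_agTI.FS
import Pool.Agent.Lib.MP_021685_agTI.FR
import Pool.Agent.Lib.MP_021685_agTI.FO
import Pool.Agent.Lib.MP_021685_agTI.FE
import Pool.Agent.Lib.MP_021685_agTI.FK

/-! T-DISJ, leaf KL: the flip from the ramification at `l`. -/

namespace TK

open Polynomial TI

private theorem KL_root {W Om : Type} [CommRing W] [Field Om] (ι : W →+* Om) (h : ℤ[X]) (s : Multiset W)
    (hs : h.map (Int.castRingHom W) = (s.map fun w => X - C w).prod) (y : Om) (hy : aeval y h = 0) :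
    ∃ v ∈ s, ι v = y := by
  have h1 : h.map (Int.castRingHom Om) = (s.map fun w => X - C (ι w)).prod := by
    have h2 : h.map (Int.castRingHom Om) = (h.map (Int.castRingHom W)).map ι := by
      rw [Polynomial.map_map]
      exact congrArg (fun f => h.map f) (RingHom.ext_int _ _)
    rw [h2, hs, Polynomial.map_multiset_prod, Multiset.map_map]
    refine congrArg _ (Multiset.map_congr rfl fun w _ => ?_)
    simp
  have h3 : (h.map (Int.castRingHom Om)).eval y = 0 := by
    rw [← hy, aeval_def, eval_map]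
    exact congrArg (fun f => eval₂ f y h) (RingHom.ext_int _ _)
  rw [h1, eval_multiset_prod, Multiset.map_map, Multiset.prod_eq_zero_iff, Multiset.mem_map] at h3
  obtain ⟨v, hv, hv'⟩ := h3
  refine ⟨v, hv, ?_⟩
  have h4 : y - ι v = 0 := by simpa using hv'
  exact (sub_eq_zero.1 h4).symm

private theorem KL_quad {F : Type} [Field F] (q z z0 x : F) (hz : z ^ 2 - x * z + q = 0)
    (hz0 : z0 ^ 2 - x * z0 + q = 0) (h0 : z0 ≠ 0) : z = z0 ∨ z = q / z0 := by
  have h1 : (z - z0) * (z * z0 - q) = 0 := by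
    linear_combination z0 * hz - z * hz0
  rcases mul_eq_zero.1 h1 with h2 | h2
  · exact Or.inl (sub_eq_zero.1 h2)
  · right
    rw [eq_div_iff h0]
    exact sub_eq_zero.1 h2

private theorem KL_aux {q r : ℕ} (hq : 0 < q) (h : Fin r → ℤ[X]) (hm : ∀ i, (h i).Monic)
    (hi : ∀ i, Irreducible (h i)) (i : Fin r) (l : ℕ) (hl : l.Prime)
    (hl2 : l ≠ 2) (hlq : ¬ l ∣ q) (h1 : (l : ℤ) ∣ resq q (h i))
    (h2 : ¬ (l : ℤ) ^ 2 ∣ resq q (h i))
    (hsep : ∀ j, ((h j).map (Int.castRingHom (ZMod l))).Separable)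
    (hj : ∀ j, j ≠ i → ¬ (l : ℤ) ∣ resq q (h j)) {E : Type} [Field E] [Algebra ℚ E] [Normal ℚ E] (z0 x0 : E)
    (hx0 : aeval x0 (h i) = 0) (hz0 : z0 ^ 2 - x0 * z0 + (q : E) = 0)
    {W k' K Om : Type} [CommRing W] [IsDomain W] [IsDiscreteValuationRing W] [CharZero W] [Field k']
    [IsAlgClosed k'] [CharP k' l] (D : Loc l W k') [Field K] [Algebra W K] [IsFractionRing W K] [Field Om]
    [Algebra K Om] [IsAlgClosed Om] [IsGalois K Om] :
    ∃ s : E ≃ₐ[ℚ] E, s z0 = (q : E) / z0 ∧ ∀ (j : Fin r) (x z : E), aeval x (h j) = 0 →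
      z ^ 2 - x * z + (q : E) = 0 → z ≠ z0 → z ≠ (q : E) / z0 → s z = z := by
  classical
  have hKz : CharZero K := charZero_of_injective_algebraMap (IsFractionRing.injective W K)
  have hOz : CharZero Om := charZero_of_injective_algebraMap (algebraMap K Om).injective
  have hEz : CharZero E := algebraRat.charZero E
  have hqE : (q : E) ≠ 0 := Nat.cast_ne_zero.2 hq.ne'
  obtain ⟨ι, hι⟩ : ∃ ι : W →+* Om, ι = (algebraMap K Om).comp (algebraMap W K) := ⟨_, rfl⟩
  obtain ⟨m, hm'⟩ := sq_W D hl hl2 (4 * (q : W)) (by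
    intro h0
    have h3 : (l : W) ∣ ((4 * q : ℕ) : W) := by
      push_cast
      exact h0
    rw [D.nat_dvd] at h3
    rcases (hl.dvd_mul).1 h3 with h4 | h4
    · have h5 : l ∣ 2 ^ 2 := h4
      exact hl2 ((Nat.prime_dvd_prime_iff_eq hl Nat.prime_two).1 (hl.dvd_of_dvd_pow h5))
    · exact hlq h4)
  choose s hs using fun j => splits_W D (h j) (hm j) (hsep j)
  have hres : ∀ j, ((resq q (h j) : ℤ) : W) = ((s j).map fun w => w ^ 2 - 4 * (q : W)).prod :=
    fun j => resq_eq_prod q (h j) (s j) (hs j) m hm'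
  obtain ⟨w, t, e, hst, hwe, hle, ht⟩ := one_root D hl q (resq q (h i)) (s i) (hres i) h1 h2
  have hw_s : w ∈ s i := by rw [hst]; exact Multiset.mem_cons_self _ _
  have good : ∀ j v, v ∈ s j → (j = i → v ≠ w) → ¬ (l : W) ∣ v ^ 2 - 4 * (q : W) := by
    intro j v hv hne
    by_cases hji : j = i
    · subst hji
      rw [hst, Multiset.mem_cons] at hv
      exact ht v (hv.resolve_left (hne rfl))
    · exact no_root D q (resq q (h j)) (s j) (hres j) (hj j hji) v hv
  have hz00 : z0 ≠ 0 := by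
    intro h0
    rw [h0] at hz0
    apply hqE
    simpa using hz0
  have hιw : aeval (ι w) (h i) = 0 := by
    have h3 : ((h i).map (Int.castRingHom Om)).eval (ι w) = aeval (ι w) (h i) := by
      rw [aeval_def, eval_map]
      exact congrArg (fun f => eval₂ f (ι w) (h i)) (RingHom.ext_int _ _)
    have h4 : (h i).map (Int.castRingHom Om) = ((h i).map (Int.castRingHom W)).map ι := by
      rw [Polynomial.map_map]
      exact congrArg (fun f => (h i).map f) (RingHom.ext_int _ _)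
    rw [← h3, h4, eval_map, eval₂_at_apply, hs i]
    have h5 : eval w ((s i).map fun w => X - C w).prod = 0 := by
      rw [eval_multiset_prod, Multiset.map_map, Multiset.prod_eq_zero_iff, Multiset.mem_map]
      exact ⟨w, hw_s, by simp⟩
    rw [h5, map_zero]
  obtain ⟨ψ, hψ⟩ := emb (h i) (hm i) (hi i) (E := E) (Om := Om) x0 hx0 (ι w) hιw
  have hψi : Function.Injective ψ := ψ.injective
  have hψ' : ψ x0 = algebraMap K Om (algebraMap W K w) := by
    rw [hψ, hι]
    rfl
  have hψz0 : ψ z0 ^ 2 - algebraMap K Om (algebraMap W K w) * ψ z0 + (q : Om) = 0 := by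
    rw [← hψ', ← map_pow, ← map_mul, ← map_sub, ← map_natCast ψ q, ← map_add, hz0, map_zero]
  have hnot := root_not_mem (K := K) (l : W) (D.prime hl.ne_zero) q w e hwe hle (ψ z0) hψz0
  obtain ⟨σ, hσ⟩ : ∃ σ : Om ≃ₐ[K] Om, σ (ψ z0) ≠ ψ z0 := by
    by_contra hcon
    push Not at hcon
    apply hnot
    have h3 : ψ z0 ∈ (⊥ : IntermediateField K Om) := (InfiniteGalois.mem_bot_iff_fixed _).2 hcon
    exact IntermediateField.mem_bot.1 h3
  have hσK : ∀ c : K, σ (algebraMap K Om c) = algebraMap K Om c := fun c => σ.commutes c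
  let _ : Algebra E Om := ψ.toAlgebra
  have hEO : ∀ x : E, algebraMap E Om x = ψ x := fun x => rfl
  have : IsScalarTower ℚ E Om := IsScalarTower.of_algebraMap_eq fun c => by
    exact congrArg (fun f : ℚ →+* Om => f c)
      (Subsingleton.elim (algebraMap ℚ Om) (ψ.comp (algebraMap ℚ E)))
  let σ' : Om ≃ₐ[ℚ] Om := AlgEquiv.ofRingEquiv (f := (σ : Om ≃+* Om)) fun c => by
    exact congrArg (fun f : ℚ →+* Om => f c)
      (Subsingleton.elim (((σ : Om ≃+* Om) : Om →+* Om).comp (algebraMap ℚ Om)) (algebraMap ℚ Om))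
  have hs' : ∀ x : E, ψ (σ'.restrictNormal E x) = σ (ψ x) := fun x =>
    AlgEquiv.restrictNormal_commutes σ' E x
  have hsx0 : σ'.restrictNormal E x0 = x0 := by
    apply hψi
    rw [hs', hψ', hσK]
  refine ⟨σ'.restrictNormal E, ?_, ?_⟩
  · have h3 : (σ'.restrictNormal E z0) ^ 2 - x0 * σ'.restrictNormal E z0 + (q : E) = 0 := by
      have h4 := congrArg (σ'.restrictNormal E) hz0
      rw [map_add, map_sub, map_pow, map_mul, map_natCast, map_zero, hsx0] at h4
      exact h4
    rcases KL_quad (q : E) _ z0 x0 h3 hz0 hz00 with h5 | h5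
    · exfalso
      apply hσ
      rw [← hs', h5]
    · exact h5
  · intro j x z hx hz hne1 hne2
    have hψx : aeval (ψ x) (h j) = 0 := by
      have h3 : ψ (aeval x (h j)) = aeval (ψ x) (h j) := by
        rw [aeval_def, aeval_def, hom_eval₂]
        exact congrArg (fun f => eval₂ f (ψ x) (h j)) (RingHom.ext_int _ _)
      rw [← h3, hx, map_zero]
    obtain ⟨v, hv, hv'⟩ := KL_root ι (h j) (s j) (hs j) (ψ x) hψx
    have hg' : ¬ (l : W) ∣ v ^ 2 - 4 * (q : W) := by
      refine good j v hv fun _ h0 => ?_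
      have h3 : ψ x = ψ x0 := by rw [← hv', h0, hψ]
      rw [hψi h3] at hz
      rcases KL_quad (q : E) z z0 x0 hz hz0 hz00 with h5 | h5
      · exact hne1 h5
      · exact hne2 h5
    obtain ⟨u, hu⟩ := sq_W D hl hl2 _ hg'
    obtain ⟨c, hc⟩ := root_mem (K := K) q v u hu (ψ z) (by
      have h3 : algebraMap K Om (algebraMap W K v) = ψ x := by
        rw [← hv', hι]
        rfl
      rw [h3, ← map_natCast ψ q, ← map_pow, ← map_mul, ← map_sub, ← map_add, hz, map_zero])
    apply hψi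
    rw [hs', ← hc, hσK]

/-- PROOF. Copy of the beginning of `FLW_aux` in `MP_021685_agTI/FLW.lean` (`E` there is `E` here, no `z a`, no `R`): `exists_loc` gives
`W`, `k'`, `D`; `K = FractionRing W`, `Om = AlgebraicClosure K`, `ι : W →+* Om`; `m` with `m ^ 2 = 4 q` (sq_W), `s j` (splits_W),
resq_eq_prod, the root `w` of `h i` with `w ^ 2 - 4 q = l e` (one_root), `good` (no_root), `emb` with `x0 : E`:
`ψ : E →+* Om`, `ψ x0 = ι w`. Turn `ψ` into an algebra: `letI := ψ.toAlgebra` (`Algebra E Om`), `Algebra ℚ Om` the usual one,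
`IsScalarTower ℚ E Om` (`IsScalarTower.of_algebraMap_eq'`, ring homomorphisms from `ℚ` are equal). `ψ z0` satisfies
`y ^ 2 - w y + q = 0` (`z0 ^ 2 - x0 z0 + q = 0`), so it is not in the image of `K` (`root_not_mem`); `Om / K` is Galois (characteristic
zero, algebraically closed, algebraic), so there is `σ : Om ≃ₐ[K] Om` with `σ (ψ z0) ≠ ψ z0`
(InfiniteGalois.mem_bot_iff_fixed, or IsGalois / `IsAlgClosure`). `s := (σ.restrictScalars ℚ).restrictNormal E`
(AlgEquiv.restrictNormal, `Normal ℚ E`), `ψ (s e) = σ (ψ e)` (AlgEquiv.restrictNormal_commutes). `σ` fixes `ψ x0 = ι w` (it is in the image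
of `K`), so `s x0 = x0`, `s z0` is a root of `X ^ 2 - x0 X + q`, that is `z0` or `q / z0` (FLW_quad: copy it as a private lemma), and it is
not `z0`. For another root `z` (`x`, `j` as in the statement): `ψ x` is a root of `h j`, so `ψ x = ι v` with `v ∈ s j` (FLW_root), `v ≠ w` if
`j = i` (else `x = x0`, and `z` is `z0` or `q / z0`), so `good` and `sq_W` and `root_mem` show that `ψ z` is in the image of `K`,
so `σ` fixes it and `s z = z` (`ψ` is injective). -/
theorem flip {q g r : ℕ} (hq : 0 < q) (h : Fin r → ℤ[X]) (hm : ∀ i, (h i).Monic)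
    (hg : ∀ i, (h i).natDegree = g) (hi : ∀ i, Irreducible (h i)) (i : Fin r) (l : ℕ) (hl : l.Prime)
    (hlg : 2 * g + 1 < l) (hlq : ¬ l ∣ q) (h1 : (l : ℤ) ∣ resq q (h i)) (h2 : ¬ (l : ℤ) ^ 2 ∣ resq q (h i))
    (hsep : ∀ j, ((h j).map (Int.castRingHom (ZMod l))).Separable)
    (hj : ∀ j, j ≠ i → ¬ (l : ℤ) ∣ resq q (h j)) {E : Type} [Field E] [Algebra ℚ E] [Normal ℚ E] (z0 x0 : E)
    (hx0 : aeval x0 (h i) = 0) (hz0 : z0 ^ 2 - x0 * z0 + (q : E) = 0) :
    ∃ s : E ≃ₐ[ℚ] E, s z0 = (q : E) / z0 ∧ ∀ (j : Fin r) (x z : E), aeval x (h j) = 0 →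
      z ^ 2 - x * z + (q : E) = 0 → z ≠ z0 → z ≠ (q : E) / z0 → s z = z := by
  have hg0 : 0 < g := by
    rcases Nat.eq_zero_or_pos g with h0 | h0
    · exfalso
      have h3 := (hm i).natDegree_eq_zero.1 ((hg i).trans h0)
      exact (hi i).not_isUnit (by rw [h3]; exact isUnit_one)
    · exact h0
  obtain ⟨W, k', i1, i2, i3, i4, i5, i6, i7, ⟨D⟩⟩ := exists_loc l hl
  have hKz : CharZero (FractionRing W) :=
    charZero_of_injective_algebraMap (IsFractionRing.injective W (FractionRing W))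
  exact KL_aux hq h hm hi i l hl (by omega) hlq h1 h2 hsep hj z0 x0 hx0 hz0 (K := FractionRing W)
    (Om := AlgebraicClosure (FractionRing W)) D

end TK
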